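import Pool.Agent.H21.CV.MNMa

/-!
Assembly of the monic case (cvz_modules, row MNM).
-/

namespace Pool.Agent.H21.CV

open Finset MvPolynomial Pool.Agent.H31.RZ

theorem pf_MNM : T_MNM := by
  intro hZER hPRM hSIZ hINV hCHR hCAN hLIN hTRF hLFF hDB m d D K ε hd hε
  obtain ⟨hT1, hT2, hT3, hT4⟩ := hTRF
  obtain ⟨hL1, hL2⟩ := hLFF
  obtain ⟨Ct, hCt, hT3'⟩ := hT3 (m + 2) d
  obtain ⟨Ca, hCa, hT4'⟩ := hT4 (m + 2)
  obtain ⟨Cl, hCl, hL2'⟩ := hL2 m d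
  obtain ⟨Cn, hCn, hLIN'⟩ := hLIN (m + 1) d
  obtain ⟨C₂, K₂, hC₂, hSIZ'⟩ := hSIZ m d D (K * (m + 2) * d + 1 + K)
    (Ct * (Ca * 2 ^ (m + 2)) ^ d)
  obtain ⟨Cd, hCd, hDB'⟩ := hDB (ε / (2 * (K₂ + 1))) (by positivity)
  have hQ0 : (0 : ℝ) ≤ Cd * (C₂ : ℝ) ^ (ε / (2 * (K₂ + 1))) := by positivity
  have hN1 : 1 ≤ NN (m + 1) d := by
    rw [NN, Nat.one_le_iff_ne_zero, Finset.card_ne_zero]
    exact ⟨Finsupp.single 0 d, mem_Mon.2 (by simp)⟩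
  refine ⟨Cn * Cl * (2 * (D : ℝ) ^ m + 4 * (Cd * (C₂ : ℝ) ^ (ε / (2 * (K₂ + 1)))) ^ 2 *
    (D : ℝ) ^ m) + 3 ^ NN (m + 1) d * Cl, ?_, ?_⟩
  · have : (1 : ℝ) ≤ Cl := by exact_mod_cast hCl
    positivity
  intro H V z e w hH hV hM hz hV' hw
  obtain ⟨hdet, hM'⟩ := hM
  have hHZ : (1 : ℤ) ≤ H := by exact_mod_cast hH
  have hfin : ∀ P : MvPolynomial (Fin (m + 1 + 1)) ℤ → Prop,
      {f | f ∈ FF (m + 1) d H ∧ P f}.Finite := fun P =>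
    (FF (m + 1) d H).finite_toSet.subset fun f hf => hf.1
  by_cases hB : Cl * V ^ d ≤ H
  swap
  · refine triv_bound hH hε hN1 hB ?_
    rw [← card_FF, ← Set.ncard_coe_finset]
    exact Set.ncard_le_ncard (fun f hf => hf.1) (FF (m + 1) d H).finite_toSet
  have hFhom : ∀ f ∈ FF (m + 1) d H, (Fz z f).IsHomogeneous d := fun f hf =>
    hT2 _ _ _ _ (mem_FF.1 hf).1
  have hadj : ∀ i j, |z.adjugate i j| ≤ ((Ca * (H ^ K + 1) ^ (m + 2) : ℕ) : ℤ) := by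
    intro i j
    have := hT4' z (H ^ K) (by intro i j; exact_mod_cast hz i j) i j
    exact_mod_cast this
  have hFco : ∀ f ∈ FF (m + 1) d H, ∀ μ, |(Fz z f).coeff μ| ≤
      ((Ct * (Ca * 2 ^ (m + 2)) ^ d : ℕ) : ℤ) * (H : ℤ) ^ (K * (m + 2) * d + 1 + K) := by
    intro f hf μ
    refine (hT3' z.adjugate f _ H (mem_FF.1 hf).1 hadj (mem_FF.1 hf).2 μ).trans ?_
    exact_mod_cast coef_bound (K := K) (m := m) (d := d) (Ct := Ct) (Ca := Ca) hH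
  have hwK : ∀ i μ, |(w i).coeff μ| ≤ (H : ℤ) ^ (K * (m + 2) * d + 1 + K) := fun i μ =>
    (hw i μ).trans (pow_le_pow_right₀ hHZ (by omega))
  have hD0 : ∀ f ∈ FF (m + 1) d H, |D0 z e w f| ≤ (C₂ : ℤ) * (H : ℤ) ^ K₂ := fun f hf =>
    hSIZ' H (Fz z f) e w 0 1 hH (hFhom f hf) (hFco f hf) (by simp) (by simp)
      (fun i => ⟨(hM' i).1, (hM' i).2.1, (hM' i).2.2.1, (hM' i).2.2.2⟩) hwK
  have hD1 : ∀ f ∈ FF (m + 1) d H, |D1 z e w f| ≤ (C₂ : ℤ) * (H : ℤ) ^ K₂ := fun f hf =>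
    hSIZ' H (Fz z f) e w 1 0 hH (hFhom f hf) (hFco f hf) (by simp) (by simp)
      (fun i => ⟨(hM' i).1, (hM' i).2.1, (hM' i).2.2.1, (hM' i).2.2.2⟩) hwK
  have hwm : ∀ i, 1 ≤ e i ∧ (w i).IsHomogeneous (e i) ∧
      (w i).coeff (Finsupp.single 2 (e i)) = 1 := fun i =>
    ⟨(hM' i).1, (hM' i).2.2.1, (hM' i).2.2.2⟩
  have hprod : ∏ i, e i ≤ D ^ m := by
    calc ∏ i, e i ≤ ∏ _i : Fin m, D := Finset.prod_le_prod' fun i _ => (hM' i).2.1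
      _ = D ^ m := by simp
  obtain ⟨hg0, hg1, hg2⟩ := hL2' z V hV'
  have hA0 := hLIN' H (Cl * V ^ d) (D ^ m) (lf z 1 ^ d) {f | D0 z e w f = 0} hH hg1
    (pow_ne_zero _ ((hL1 _ z 1).2 hdet)) hB (first hL1 hCHR d D z e w hdet H hprod)
  have hA1 := hLIN' H (Cl * V ^ d) (D ^ m) (lf z 0 ^ d) {f | D1 z e w f = 0} hH hg0
    (pow_ne_zero _ ((hL1 _ z 0).2 hdet)) hB (second hL1 hCHR d D z e w hdet H hprod)
  have hA2 := hLIN' H (Cl * V ^ d) ⌊4 * (Cd * (C₂ : ℝ) ^ (ε / (2 * (K₂ + 1)))) ^ 2 *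
      (D : ℝ) ^ m * (H : ℝ) ^ ε⌋₊ (lf z 0 * lf z 1 * lf z 0 ^ (d - 2)) (AA z e w) hH (hg2 hd)
    (mul_ne_zero (mul_ne_zero ((hL1 _ z 0).2 hdet) ((hL1 _ z 1).2 hdet))
      (pow_ne_zero _ ((hL1 _ z 0).2 hdet))) hB
    (third hINV hL1 d hd z e w hdet H _ (by
      intro f hf h0 h1
      obtain ⟨hYf, hYc⟩ := hCAN m e w _ _ hwm h0 h1
      refine ⟨hYf, Nat.le_floor ?_⟩
      exact cand_bound hH hQ0 (div_bound hε rfl hCd hH hDB' _ h0 (hD0 f hf))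
        (div_bound hε rfl hCd hH hDB' _ h1 (hD1 f hf)) hprod hYc))
  refine final_bound hH hε (Nat.floor_le (by positivity)) ?_
  have hcov : {f | f ∈ FF (m + 1) d H ∧ ∃ x : Fin (m + 2) → ℤ, x ≠ 0 ∧ OnC z w x ∧
      eval x f = 0} ⊆ ({f | f ∈ FF (m + 1) d H ∧ f ∈ {f | D0 z e w f = 0}} ∪
      {f | f ∈ FF (m + 1) d H ∧ f ∈ {f | D1 z e w f = 0}}) ∪
      {f | f ∈ FF (m + 1) d H ∧ f ∈ AA z e w} := by
    rintro f ⟨hf, x, hx, hOn, hfx⟩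
    by_cases h0 : D0 z e w f = 0
    · exact Or.inl (Or.inl ⟨hf, h0⟩)
    by_cases h1 : D1 z e w f = 0
    · exact Or.inl (Or.inr ⟨hf, h1⟩)
    exact Or.inr ⟨hf, cover hT1 hT2 hPRM hZER d z e w hdet hwm f (mem_FF.1 hf).1 h0 h1 x hx hOn
      hfx⟩
  refine (Set.ncard_le_ncard hcov (((hfin _).union (hfin _)).union (hfin _))).trans ?_
  refine (Set.ncard_union_le _ _).trans (add_le_add ?_ hA2)
  exact (Set.ncard_union_le _ _).trans (add_le_add hA0 hA1)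

end Pool.Agent.H21.CV
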