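import Pool.Agent.H66.CV.CAN
import Pool.Agent.H66.CV.CHR
import Pool.Agent.H66.CV.CMP
import Pool.Agent.H76.CV.DVD
import Pool.Agent.H76.CV.LIN
import Pool.Agent.H49.CV.FAM
import Pool.Agent.H32.CV.LFF
import Pool.Agent.H32.CV.MON
import Pool.Agent.H32.CV.PRM
import Pool.Agent.H74.CVZ.SIZ
import Pool.Agent.H79.CVZ.SPM
import Pool.Agent.H13.CV.TRF
import Pool.Agent.H5.CV.ZER
import Pool.Agent.H21.CV.MNM

/-!
All the rows of `cvz_modules`.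
-/

namespace Pool.Agent.H21.CV

theorem tSPM : T_SPM := Pool.Agent.H79.CVZ.pf_SPM
theorem tDVD : T_DVD := Pool.Agent.H76.CV.pf_DVD (Pool.Agent.H66.CV.pf_KRN Pool.Agent.H66.CV.pf_CMP)
theorem tZER : T_ZER := Pool.Agent.H5.CV.pf_ZER tDVD tSPM
theorem tSIZ : T_SIZ := Pool.Agent.H74.CVZ.pf_SIZ tSPM
theorem tCAN : T_CAN := Pool.Agent.H66.CV.pf_CAN tSPM

theorem tMAINM : T_MAINM :=
  pf_MNM tZER Pool.Agent.H32.CV.PRM.pf_PRM tSIZ Pool.Agent.H66.CV.pf_INV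
    Pool.Agent.H66.CV.pf_CHR tCAN Pool.Agent.H76.CV.pf_LIN Pool.Agent.H13.CV.pf_TRF
    Pool.Agent.H32.CV.LFF.pf_LFF Pool.Agent.H66.CV.pf_DB

theorem tMAIN : T_MAIN := Pool.Agent.H32.CV.MON.pf_MON tMAINM

theorem tFAMC : T_FAMC := Pool.Agent.H49.CV.pf_FAM tMAIN

end Pool.Agent.H21.CV
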