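import Pool.Agent.H21.CV.Targets

/-!
Assembly of the monic case (cvz_modules, row MNM).
-/

namespace Pool.Agent.H21.CV

open Finset MvPolynomial Pool.Agent.H31.RZ

section trf

variable {m : ℕ} (A : Matrix (Fin m) (Fin m) ℤ)

theorem trf_add (f g : MvPolynomial (Fin m) ℤ) : trf A (f + g) = trf A f + trf A g := by
  simp [trf]

theorem trf_mul (f g : MvPolynomial (Fin m) ℤ) : trf A (f * g) = trf A f * trf A g := by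
  simp [trf]

theorem trf_pow (f : MvPolynomial (Fin m) ℤ) (k : ℕ) : trf A (f ^ k) = trf A f ^ k := by
  simp [trf]

theorem trf_C (a : ℤ) : trf A (C a) = C a := by
  simp [trf]

end trf

/-- the forms in the new coordinates -/
noncomputable def Fz {m : ℕ} (z : Matrix (Fin (m + 2)) (Fin (m + 2)) ℤ)
    (f : MvPolynomial (Fin (m + 2)) ℤ) : MvPolynomial (Fin (m + 2)) ℤ := trf z.adjugate f

noncomputable def D0 {m : ℕ} (z : Matrix (Fin (m + 2)) (Fin (m + 2)) ℤ) (e : Fin m → ℕ)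
    (w : Fin m → MvPolynomial (Fin 3) ℤ) (f : MvPolynomial (Fin (m + 2)) ℤ) : ℤ :=
  (MF (Fz z f) (0 : ℤ) 1 (fun i => sp (w i) 0 1) e).det

noncomputable def D1 {m : ℕ} (z : Matrix (Fin (m + 2)) (Fin (m + 2)) ℤ) (e : Fin m → ℕ)
    (w : Fin m → MvPolynomial (Fin 3) ℤ) (f : MvPolynomial (Fin (m + 2)) ℤ) : ℤ :=
  (MF (Fz z f) (1 : ℤ) 0 (fun i => sp (w i) 1 0) e).det

theorem Fz_one (hL : ∀ (m : ℕ) (z : Matrix (Fin m) (Fin m) ℤ) (i : Fin m),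
    trf z.adjugate (lf z i) = C z.det * X i ∧ (z.det ≠ 0 → lf z i ≠ 0)) {m : ℕ} (d : ℕ)
    (z : Matrix (Fin (m + 2)) (Fin (m + 2)) ℤ) (i : Fin (m + 2))
    (f : MvPolynomial (Fin (m + 2)) ℤ) (τ : ℤ) :
    Fz z (f + C τ * lf z i ^ d) = Fz z f + C (τ * z.det ^ d) * X i ^ d := by
  rw [Fz, trf_add, trf_mul, trf_C, trf_pow, (hL _ z i).1, mul_pow, ← C_pow, ← mul_assoc, ← C_mul]
  rfl

theorem Fz_two (hL : ∀ (m : ℕ) (z : Matrix (Fin m) (Fin m) ℤ) (i : Fin m),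
    trf z.adjugate (lf z i) = C z.det * X i ∧ (z.det ≠ 0 → lf z i ≠ 0)) {m : ℕ} (d : ℕ)
    (hd : 2 ≤ d) (z : Matrix (Fin (m + 2)) (Fin (m + 2)) ℤ)
    (f : MvPolynomial (Fin (m + 2)) ℤ) (τ : ℤ) :
    Fz z (f + C τ * (lf z 0 * lf z 1 * lf z 0 ^ (d - 2))) =
      Fz z f + X 0 * X 1 * (C (τ * z.det ^ d) * X 0 ^ (d - 2)) := by
  rw [Fz, trf_add, trf_mul, trf_C, trf_mul, trf_mul, trf_pow, (hL _ z 0).1, (hL _ z 1).1]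
  obtain ⟨k, rfl⟩ : ∃ k, d = k + 2 := ⟨d - 2, by omega⟩
  have : k + 2 - 2 = k := by omega
  rw [this, Fz]
  simp only [map_mul, map_pow]
  ring

theorem div_bound {Cd δ ε : ℝ} {C₂ K₂ H : ℕ} (hε : 0 < ε) (hδ : δ = ε / (2 * (K₂ + 1)))
    (hCd : 1 ≤ Cd) (hH : 1 ≤ H)
    (hDB' : ∀ n : ℕ, 1 ≤ n → (#n.divisors : ℝ) ≤ Cd * (n : ℝ) ^ δ) (a : ℤ) (ha0 : a ≠ 0)
    (ha : |a| ≤ (C₂ : ℤ) * (H : ℤ) ^ K₂) :
    ((#a.natAbs.divisors : ℕ) : ℝ) ≤ (Cd * (C₂ : ℝ) ^ δ) * (H : ℝ) ^ (ε / 2) := by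
  have hHR : (1 : ℝ) ≤ H := by exact_mod_cast hH
  have hK₂ : (0 : ℝ) ≤ K₂ := Nat.cast_nonneg _
  have hδ0 : 0 < δ := by rw [hδ]; positivity
  have h1 := hDB' a.natAbs (by have := Int.natAbs_pos.2 ha0; omega)
  have h2 : ((a.natAbs : ℕ) : ℝ) ≤ (C₂ : ℝ) * (H : ℝ) ^ K₂ := by
    have h3 : ((a.natAbs : ℕ) : ℤ) ≤ ((C₂ * H ^ K₂ : ℕ) : ℤ) := by
      rw [Int.natCast_natAbs]
      push_cast
      exact ha
    have h4 : a.natAbs ≤ C₂ * H ^ K₂ := by exact_mod_cast h3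
    exact_mod_cast h4
  have h7 : (K₂ : ℝ) * δ ≤ ε / 2 := by
    rw [hδ]
    have h5 : (K₂ : ℝ) * (ε / (2 * (K₂ + 1))) = (ε / 2) * (K₂ / (K₂ + 1)) := by
      field_simp
    rw [h5]
    have h6 : (K₂ : ℝ) / (K₂ + 1) ≤ 1 := by
      rw [div_le_one (by positivity)]
      linarith
    exact mul_le_of_le_one_right (by positivity) h6
  have h8 : (((C₂ : ℝ) * (H : ℝ) ^ K₂)) ^ δ = (C₂ : ℝ) ^ δ * (H : ℝ) ^ ((K₂ : ℝ) * δ) := by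
    rw [Real.mul_rpow (by positivity) (by positivity), ← Real.rpow_natCast,
      ← Real.rpow_mul (by positivity)]
  calc ((#a.natAbs.divisors : ℕ) : ℝ) ≤ Cd * ((a.natAbs : ℕ) : ℝ) ^ δ := h1
    _ ≤ Cd * ((C₂ : ℝ) * (H : ℝ) ^ K₂) ^ δ :=
        mul_le_mul_of_nonneg_left (Real.rpow_le_rpow (Nat.cast_nonneg _) h2 hδ0.le) (by linarith)
    _ = (Cd * (C₂ : ℝ) ^ δ) * (H : ℝ) ^ ((K₂ : ℝ) * δ) := by
        rw [h8]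
        ring
    _ ≤ (Cd * (C₂ : ℝ) ^ δ) * (H : ℝ) ^ (ε / 2) :=
        mul_le_mul_of_nonneg_left (Real.rpow_le_rpow_of_exponent_le hHR h7) (by positivity)

theorem cand_bound {Q ε : ℝ} {D m H : ℕ} (hH : 1 ≤ H) {nY ta tb pe : ℕ} (hQ0 : 0 ≤ Q)
    (h1 : (ta : ℝ) ≤ Q * (H : ℝ) ^ (ε / 2)) (h2 : (tb : ℝ) ≤ Q * (H : ℝ) ^ (ε / 2))
    (h4 : pe ≤ D ^ m) (h : nY ≤ (2 * ta) * (2 * tb) * pe) :
    (nY : ℝ) ≤ 4 * Q ^ 2 * (D : ℝ) ^ m * (H : ℝ) ^ ε := by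
  have hHR : (0 : ℝ) < H := by exact_mod_cast hH
  have h3 : (nY : ℝ) ≤ (2 * (ta : ℝ)) * (2 * (tb : ℝ)) * (pe : ℝ) := by exact_mod_cast h
  have h4' : (pe : ℝ) ≤ (D : ℝ) ^ m := by exact_mod_cast h4
  have h5 : (H : ℝ) ^ (ε / 2) * (H : ℝ) ^ (ε / 2) = (H : ℝ) ^ ε := by
    rw [← Real.rpow_add hHR]
    congr 1
    ring
  have h6 : (0 : ℝ) ≤ (H : ℝ) ^ (ε / 2) := by positivity
  have h7 : (2 * (ta : ℝ)) * (2 * (tb : ℝ)) ≤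
      (2 * (Q * (H : ℝ) ^ (ε / 2))) * (2 * (Q * (H : ℝ) ^ (ε / 2))) :=
    mul_le_mul (by linarith) (by linarith) (by positivity) (by positivity)
  calc (nY : ℝ) ≤ (2 * (ta : ℝ)) * (2 * (tb : ℝ)) * (pe : ℝ) := h3
    _ ≤ (2 * (Q * (H : ℝ) ^ (ε / 2))) * (2 * (Q * (H : ℝ) ^ (ε / 2))) * (D : ℝ) ^ m :=
        mul_le_mul h7 h4' (by positivity) (by positivity)
    _ = 4 * Q ^ 2 * (D : ℝ) ^ m * ((H : ℝ) ^ (ε / 2) * (H : ℝ) ^ (ε / 2)) := by ring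
    _ = _ := by rw [h5]

theorem final_bound {Q ε : ℝ} {D m H V Cn Cl L N d nS : ℕ} (hH : 1 ≤ H) (hε : 0 < ε)
    (hL : (L : ℝ) ≤ 4 * Q ^ 2 * (D : ℝ) ^ m * (H : ℝ) ^ ε)
    (hnc : nS ≤ Cn * D ^ m * (Cl * V ^ d) * H ^ (N - 1) +
      Cn * D ^ m * (Cl * V ^ d) * H ^ (N - 1) + Cn * L * (Cl * V ^ d) * H ^ (N - 1)) :
    (nS : ℝ) ≤ (Cn * Cl * (2 * (D : ℝ) ^ m + 4 * Q ^ 2 * (D : ℝ) ^ m) + 3 ^ N * Cl) *
      (V : ℝ) ^ d * (H : ℝ) ^ ε * (H : ℝ) ^ (N - 1) := by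
  have hHR : (1 : ℝ) ≤ H := by exact_mod_cast hH
  have hHε : (1 : ℝ) ≤ (H : ℝ) ^ ε := Real.one_le_rpow hHR hε.le
  have hncR : (nS : ℝ) ≤ Cn * (D : ℝ) ^ m * (Cl * (V : ℝ) ^ d) * (H : ℝ) ^ (N - 1) +
      Cn * (D : ℝ) ^ m * (Cl * (V : ℝ) ^ d) * (H : ℝ) ^ (N - 1) +
      Cn * L * (Cl * (V : ℝ) ^ d) * (H : ℝ) ^ (N - 1) := by exact_mod_cast hnc
  set P : ℝ := Cn * (Cl * (V : ℝ) ^ d) * (H : ℝ) ^ (N - 1) with hP
  have hP0 : 0 ≤ P := by positivity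
  set X : ℝ := (D : ℝ) ^ m with hX
  have hX0 : 0 ≤ X := by positivity
  set Z : ℝ := (H : ℝ) ^ ε with hZ
  have h0 : (nS : ℝ) ≤ P * (2 * X + L) := by
    rw [hP]
    linarith
  have h1 : P * (2 * X + L) ≤ P * (2 * (X * Z) + 4 * Q ^ 2 * X * Z) :=
    mul_le_mul_of_nonneg_left (by nlinarith [mul_le_mul_of_nonneg_left hHε hX0]) hP0
  have h2 : 0 ≤ 3 ^ N * (Cl : ℝ) * (V : ℝ) ^ d * Z * (H : ℝ) ^ (N - 1) := by positivity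
  calc (nS : ℝ) ≤ P * (2 * (X * Z) + 4 * Q ^ 2 * X * Z) := h0.trans h1
    _ ≤ P * (2 * (X * Z) + 4 * Q ^ 2 * X * Z) +
        3 ^ N * (Cl : ℝ) * (V : ℝ) ^ d * Z * (H : ℝ) ^ (N - 1) := by linarith
    _ = _ := by
        rw [hP]
        ring

theorem triv_bound {Q ε : ℝ} {D m H V Cn Cl N d nS : ℕ} (hH : 1 ≤ H) (hε : 0 < ε)
    (hN1 : 1 ≤ N) (hB : ¬ Cl * V ^ d ≤ H) (h2 : nS ≤ (2 * H + 1) ^ N) :
    (nS : ℝ) ≤ (Cn * Cl * (2 * (D : ℝ) ^ m + 4 * Q ^ 2 * (D : ℝ) ^ m) + 3 ^ N * Cl) *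
      (V : ℝ) ^ d * (H : ℝ) ^ ε * (H : ℝ) ^ (N - 1) := by
  have hHR : (1 : ℝ) ≤ H := by exact_mod_cast hH
  have hHε : (1 : ℝ) ≤ (H : ℝ) ^ ε := Real.one_le_rpow hHR hε.le
  have h2' : (nS : ℝ) ≤ (2 * (H : ℝ) + 1) ^ N := by exact_mod_cast h2
  have h3 : (2 * (H : ℝ) + 1) ^ N ≤ (3 * (H : ℝ)) ^ N :=
    pow_le_pow_left₀ (by positivity) (by linarith) N
  have h4 : (H : ℝ) ≤ Cl * (V : ℝ) ^ d := by
    have : H ≤ Cl * V ^ d := by omega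
    exact_mod_cast this
  have h5 : (3 * (H : ℝ)) ^ N = 3 ^ N * (H * (H : ℝ) ^ (N - 1)) := by
    rw [mul_pow, mul_pow_sub_one (by omega)]
  have h6 : (H : ℝ) * (H : ℝ) ^ (N - 1) ≤ (Cl * (V : ℝ) ^ d) * (H : ℝ) ^ (N - 1) :=
    mul_le_mul_of_nonneg_right h4 (by positivity)
  have h7 : 0 ≤ (Cn : ℝ) * Cl * (2 * (D : ℝ) ^ m + 4 * Q ^ 2 * (D : ℝ) ^ m) := by positivity
  set Z : ℝ := (H : ℝ) ^ ε with hZ
  set W : ℝ := (V : ℝ) ^ d * (H : ℝ) ^ (N - 1) with hW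
  have hW0 : 0 ≤ W := by positivity
  set U : ℝ := (Cn : ℝ) * Cl * (2 * (D : ℝ) ^ m + 4 * Q ^ 2 * (D : ℝ) ^ m) with hU
  calc (nS : ℝ) ≤ 3 ^ N * ((Cl * (V : ℝ) ^ d) * (H : ℝ) ^ (N - 1)) := by
        refine (h2'.trans h3).trans ?_
        rw [h5]
        exact mul_le_mul_of_nonneg_left h6 (by positivity)
    _ = 3 ^ N * Cl * W := by
        rw [hW]
        ring
    _ ≤ (U + 3 ^ N * Cl) * W * Z := by
        have h8 : 3 ^ N * (Cl : ℝ) * W ≤ (U + 3 ^ N * Cl) * W :=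
          mul_le_mul_of_nonneg_right (by linarith) hW0
        have h9 : 0 ≤ (U + 3 ^ N * (Cl : ℝ)) * W := by positivity
        nlinarith [mul_le_mul_of_nonneg_left hHε h9]
    _ = _ := by
        rw [hW]
        ring

theorem coef_bound {K m d Ct Ca H : ℕ} (hH : 1 ≤ H) :
    Ct * (Ca * (H ^ K + 1) ^ (m + 2)) ^ d * H ≤
      (Ct * (Ca * 2 ^ (m + 2)) ^ d) * H ^ (K * (m + 2) * d + 1 + K) := by
  have h3 : H ^ K + 1 ≤ 2 * H ^ K := by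
    have : 1 ≤ H ^ K := Nat.one_le_pow _ _ hH
    omega
  have h2 : (Ca * (H ^ K + 1) ^ (m + 2)) ≤ (Ca * 2 ^ (m + 2)) * H ^ (K * (m + 2)) := by
    calc Ca * (H ^ K + 1) ^ (m + 2) ≤ Ca * (2 * H ^ K) ^ (m + 2) :=
          Nat.mul_le_mul_left _ (Nat.pow_le_pow_left h3 _)
      _ = _ := by rw [mul_pow, ← pow_mul]; ring
  calc Ct * (Ca * (H ^ K + 1) ^ (m + 2)) ^ d * H
      ≤ Ct * ((Ca * 2 ^ (m + 2)) * H ^ (K * (m + 2))) ^ d * H :=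
        Nat.mul_le_mul_right _ (Nat.mul_le_mul_left _ (Nat.pow_le_pow_left h2 _))
    _ = (Ct * (Ca * 2 ^ (m + 2)) ^ d) * H ^ (K * (m + 2) * d + 1) := by
        rw [mul_pow, ← pow_mul]; ring
    _ ≤ _ := Nat.mul_le_mul_left _ (Nat.pow_le_pow_right hH (by omega))

/-- the candidates -/
def YY {m : ℕ} (w : Fin m → MvPolynomial (Fin 3) ℤ) (a b : ℤ) : Set (Fin (m + 2) → ℤ) :=
  {y | y 0 ∣ a ∧ y 1 ∣ b ∧ ∀ i : Fin m, eval ![y 0, y 1, y i.succ.succ] (w i) = 0}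

/-- the forms of the third kind -/
def AA {m : ℕ} (z : Matrix (Fin (m + 2)) (Fin (m + 2)) ℤ) (e : Fin m → ℕ)
    (w : Fin m → MvPolynomial (Fin 3) ℤ) : Set (MvPolynomial (Fin (m + 1 + 1)) ℤ) :=
  {f | D0 z e w f ≠ 0 ∧ D1 z e w f ≠ 0 ∧
    ∃ y : Fin (m + 2) → ℤ, y ∈ YY w (D0 z e w f) (D1 z e w f) ∧ eval y (Fz z f) = 0}

theorem third (hINV : T_INV) (hL1 : ∀ (m : ℕ) (z : Matrix (Fin m) (Fin m) ℤ) (i : Fin m),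
    trf z.adjugate (lf z i) = C z.det * X i ∧ (z.det ≠ 0 → lf z i ≠ 0)) {m : ℕ} (d : ℕ)
    (hd : 2 ≤ d) (z : Matrix (Fin (m + 2)) (Fin (m + 2)) ℤ) (e : Fin m → ℕ)
    (w : Fin m → MvPolynomial (Fin 3) ℤ) (hdet : z.det ≠ 0) (H L : ℕ)
    (hY : ∀ f ∈ FF (m + 1) d H, D0 z e w f ≠ 0 → D1 z e w f ≠ 0 →
      (YY w (D0 z e w f) (D1 z e w f)).Finite ∧ (YY w (D0 z e w f) (D1 z e w f)).ncard ≤ L)
    (f : MvPolynomial (Fin (m + 1 + 1)) ℤ) :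
    {τ : ℤ | f + C τ * (lf z 0 * lf z 1 * lf z 0 ^ (d - 2)) ∈ FF (m + 1) d H ∧
      f + C τ * (lf z 0 * lf z 1 * lf z 0 ^ (d - 2)) ∈ AA z e w}.Finite ∧
    {τ : ℤ | f + C τ * (lf z 0 * lf z 1 * lf z 0 ^ (d - 2)) ∈ FF (m + 1) d H ∧
      f + C τ * (lf z 0 * lf z 1 * lf z 0 ^ (d - 2)) ∈ AA z e w}.ncard ≤ L := by
  have hdetd : z.det ^ d ≠ 0 := pow_ne_zero _ hdet
  set g := lf z 0 * lf z 1 * lf z 0 ^ (d - 2) with hg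
  set T : Set ℤ := {τ : ℤ | f + C τ * g ∈ FF (m + 1) d H ∧ f + C τ * g ∈ AA z e w} with hT
  rcases Set.eq_empty_or_nonempty T with hT0 | ⟨τ₀, hτ₀⟩
  · rw [hT0]
    exact ⟨Set.finite_empty, by simp⟩
  obtain ⟨hF0, hne0, hne1, -⟩ := hτ₀
  obtain ⟨hYf, hYc⟩ := hY _ hF0 hne0 hne1
  have hshift : ∀ τ : ℤ, Fz z (f + C τ * g) = Fz z (f + C τ₀ * g) +
      X 0 * X 1 * (C ((τ - τ₀) * z.det ^ d) * X 0 ^ (d - 2)) := by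
    intro τ
    rw [← Fz_two hL1 d hd z, ← hg]
    congr 1
    simp only [map_sub]
    ring
  have hsame0 : ∀ τ : ℤ, D0 z e w (f + C τ * g) = D0 z e w (f + C τ₀ * g) := by
    intro τ
    rw [D0, hshift, (hINV m _ _ _ e).1, D0]
  have hsame1 : ∀ τ : ℤ, D1 z e w (f + C τ * g) = D1 z e w (f + C τ₀ * g) := by
    intro τ
    rw [D1, hshift, (hINV m _ _ _ e).2, D1]
  have hch : ∀ τ ∈ T, ∃ y : Fin (m + 2) → ℤ,
      y ∈ YY w (D0 z e w (f + C τ₀ * g)) (D1 z e w (f + C τ₀ * g)) ∧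
      eval y (Fz z (f + C τ * g)) = 0 := by
    rintro τ ⟨-, -, -, y, hy, hy3⟩
    rw [hsame0, hsame1] at hy
    exact ⟨y, hy, hy3⟩
  choose! φ hφ using hch
  have hmaps : Set.MapsTo φ T (YY w (D0 z e w (f + C τ₀ * g)) (D1 z e w (f + C τ₀ * g))) :=
    fun τ hτ => (hφ τ hτ).1
  have hinj : Set.InjOn φ T := by
    intro τ hτ τ' hτ' he
    have h1 := (hφ τ hτ).2
    have h2 := (hφ τ' hτ').2
    rw [← he] at h2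
    have hyY := (hφ τ hτ).1
    have hy0 : φ τ 0 ≠ 0 := by
      intro h
      have := hyY.1
      rw [h, zero_dvd_iff] at this
      exact hne0 this
    have hy1 : φ τ 1 ≠ 0 := by
      intro h
      have := hyY.2.1
      rw [h, zero_dvd_iff] at this
      exact hne1 this
    rw [hshift] at h1 h2
    simp only [map_add, map_mul, eval_X, eval_C, map_pow] at h1 h2
    have h3 : (τ - τ') * (φ τ 0 * φ τ 1 * (z.det ^ d * φ τ 0 ^ (d - 2))) = 0 := by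
      linear_combination h1 - h2
    have h4 : φ τ 0 * φ τ 1 * (z.det ^ d * φ τ 0 ^ (d - 2)) ≠ 0 :=
      mul_ne_zero (mul_ne_zero hy0 hy1) (mul_ne_zero hdetd (pow_ne_zero _ hy0))
    have h5 := (mul_eq_zero.1 h3).resolve_right h4
    omega
  exact ⟨Set.Finite.of_injOn hmaps hinj hYf,
    (Set.ncard_le_ncard_of_injOn φ hmaps hinj hYf).trans hYc⟩

theorem first (hL1 : ∀ (m : ℕ) (z : Matrix (Fin m) (Fin m) ℤ) (i : Fin m),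
    trf z.adjugate (lf z i) = C z.det * X i ∧ (z.det ≠ 0 → lf z i ≠ 0)) (hCHR : T_CHR) {m : ℕ}
    (d D : ℕ) (z : Matrix (Fin (m + 2)) (Fin (m + 2)) ℤ) (e : Fin m → ℕ)
    (w : Fin m → MvPolynomial (Fin 3) ℤ) (hdet : z.det ≠ 0) (H : ℕ) (hprod : ∏ i, e i ≤ D ^ m)
    (f : MvPolynomial (Fin (m + 1 + 1)) ℤ) :
    {τ : ℤ | f + C τ * lf z 1 ^ d ∈ FF (m + 1) d H ∧
      f + C τ * lf z 1 ^ d ∈ {f | D0 z e w f = 0}}.Finite ∧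
    {τ : ℤ | f + C τ * lf z 1 ^ d ∈ FF (m + 1) d H ∧
      f + C τ * lf z 1 ^ d ∈ {f | D0 z e w f = 0}}.ncard ≤ D ^ m := by
  have h1 := (hCHR m d (z.det ^ d) (Fz z f) (fun i => sp (w i) 0 1) e (pow_ne_zero _ hdet)).1
  have h2 : {τ : ℤ | f + C τ * lf z 1 ^ d ∈ FF (m + 1) d H ∧
      f + C τ * lf z 1 ^ d ∈ {f | D0 z e w f = 0}} ⊆
      {τ : ℤ | (MF (Fz z f + C (τ * z.det ^ d) * X 1 ^ d) (0 : ℤ) 1
        (fun i => sp (w i) 0 1) e).det = 0} := by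
    rintro τ ⟨-, hτ⟩
    have h3 : D0 z e w (f + C τ * lf z 1 ^ d) = 0 := hτ
    rw [D0, Fz_one hL1] at h3
    exact h3
  exact ⟨h1.1.subset h2, (Set.ncard_le_ncard h2 h1.1).trans (h1.2.trans hprod)⟩

theorem second (hL1 : ∀ (m : ℕ) (z : Matrix (Fin m) (Fin m) ℤ) (i : Fin m),
    trf z.adjugate (lf z i) = C z.det * X i ∧ (z.det ≠ 0 → lf z i ≠ 0)) (hCHR : T_CHR) {m : ℕ}
    (d D : ℕ) (z : Matrix (Fin (m + 2)) (Fin (m + 2)) ℤ) (e : Fin m → ℕ)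
    (w : Fin m → MvPolynomial (Fin 3) ℤ) (hdet : z.det ≠ 0) (H : ℕ) (hprod : ∏ i, e i ≤ D ^ m)
    (f : MvPolynomial (Fin (m + 1 + 1)) ℤ) :
    {τ : ℤ | f + C τ * lf z 0 ^ d ∈ FF (m + 1) d H ∧
      f + C τ * lf z 0 ^ d ∈ {f | D1 z e w f = 0}}.Finite ∧
    {τ : ℤ | f + C τ * lf z 0 ^ d ∈ FF (m + 1) d H ∧
      f + C τ * lf z 0 ^ d ∈ {f | D1 z e w f = 0}}.ncard ≤ D ^ m := by
  have h1 := (hCHR m d (z.det ^ d) (Fz z f) (fun i => sp (w i) 1 0) e (pow_ne_zero _ hdet)).2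
  have h2 : {τ : ℤ | f + C τ * lf z 0 ^ d ∈ FF (m + 1) d H ∧
      f + C τ * lf z 0 ^ d ∈ {f | D1 z e w f = 0}} ⊆
      {τ : ℤ | (MF (Fz z f + C (τ * z.det ^ d) * X 0 ^ d) (1 : ℤ) 0
        (fun i => sp (w i) 1 0) e).det = 0} := by
    rintro τ ⟨-, hτ⟩
    have h3 : D1 z e w (f + C τ * lf z 0 ^ d) = 0 := hτ
    rw [D1, Fz_one hL1] at h3
    exact h3
  exact ⟨h1.1.subset h2, (Set.ncard_le_ncard h2 h1.1).trans (h1.2.trans hprod)⟩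

theorem cover (hT1 : ∀ (m : ℕ) (A : Matrix (Fin m) (Fin m) ℤ) (f : MvPolynomial (Fin m) ℤ)
    (y : Fin m → ℤ), eval y (trf A f) = eval (A.mulVec y) f)
    (hT2 : ∀ (m d : ℕ) (A : Matrix (Fin m) (Fin m) ℤ) (f : MvPolynomial (Fin m) ℤ),
      f.IsHomogeneous d → (trf A f).IsHomogeneous d)
    (hPRM : T_PRM) (hZER : T_ZER) {m : ℕ} (d : ℕ) (z : Matrix (Fin (m + 2)) (Fin (m + 2)) ℤ)
    (e : Fin m → ℕ) (w : Fin m → MvPolynomial (Fin 3) ℤ) (hdet : z.det ≠ 0)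
    (hwm : ∀ i, 1 ≤ e i ∧ (w i).IsHomogeneous (e i) ∧
      (w i).coeff (Finsupp.single 2 (e i)) = 1)
    (f : MvPolynomial (Fin (m + 1 + 1)) ℤ) (hf : f.IsHomogeneous d)
    (h0 : D0 z e w f ≠ 0) (h1 : D1 z e w f ≠ 0)
    (x : Fin (m + 2) → ℤ) (hx : x ≠ 0) (hOn : OnC z w x) (hfx : eval x f = 0) :
    f ∈ AA z e w := by
  have hFhom : (Fz z f).IsHomogeneous d := hT2 _ _ _ _ hf
  refine ⟨h0, h1, ?_⟩
  have hy0 : z.mulVec x ≠ 0 := fun h => hx (Matrix.eq_zero_of_mulVec_eq_zero hdet h)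
  obtain ⟨g, y', hg', hyg, hcop, hy'⟩ := hPRM m e w (z.mulVec x) hwm hy0 hOn
  have hFy : eval (z.mulVec x) (Fz z f) = 0 := by
    rw [Fz, hT1, Matrix.mulVec_mulVec, Matrix.adjugate_mul, Matrix.smul_mulVec,
      Matrix.one_mulVec, eval_smul' hf, hfx, mul_zero]
  have hFy' : eval y' (Fz z f) = 0 := by
    rw [hyg, eval_smul' (n := m + 1) hFhom] at hFy
    exact (mul_eq_zero.1 hFy).resolve_left (pow_ne_zero _ hg')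
  have hz' := hZER m d (Fz z f) e w y' hFhom hwm hcop hy' hFy'
  exact ⟨y', ⟨hz'.1, hz'.2, hy'⟩, hFy'⟩

end Pool.Agent.H21.CV
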