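import Pool.Agent.H31.RZ.Form

/-!
# Random forms with a zero on a curve (MP_6e60ff_nt): definitions and targets of `cvz_modules`

A curve is given by `m + 2` linearly independent linear forms `z 0, ..., z (m + 1)` and, for every
`i : Fin m`, a form `w i` of degree `e i` in the three quantities `z 0, z 1, z (i + 2)` in which the
coefficient of the pure power of the last variable is not zero.
-/

namespace Pool.Agent.H21.CV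

open Finset MvPolynomial Pool.Agent.H31.RZ

/-- `x` satisfies the equations of the curve -/
def OnC {m : ℕ} (z : Matrix (Fin (m + 2)) (Fin (m + 2)) ℤ) (w : Fin m → MvPolynomial (Fin 3) ℤ)
    (x : Fin (m + 2) → ℤ) : Prop :=
  ∀ i : Fin m, eval ![z.mulVec x 0, z.mulVec x 1, z.mulVec x i.succ.succ] (w i) = 0

/-- the data of a curve of degree at most `D` (in every equation) -/
def IsD {m : ℕ} (D : ℕ) (z : Matrix (Fin (m + 2)) (Fin (m + 2)) ℤ) (e : Fin m → ℕ)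
    (w : Fin m → MvPolynomial (Fin 3) ℤ) : Prop :=
  z.det ≠ 0 ∧ ∀ i, 1 ≤ e i ∧ e i ≤ D ∧ (w i).IsHomogeneous (e i) ∧
    (w i).coeff (Finsupp.single 2 (e i)) ≠ 0

/-- the same, all equations monic -/
def IsM {m : ℕ} (D : ℕ) (z : Matrix (Fin (m + 2)) (Fin (m + 2)) ℤ) (e : Fin m → ℕ)
    (w : Fin m → MvPolynomial (Fin 3) ℤ) : Prop :=
  z.det ≠ 0 ∧ ∀ i, 1 ≤ e i ∧ e i ≤ D ∧ (w i).IsHomogeneous (e i) ∧
    (w i).coeff (Finsupp.single 2 (e i)) = 1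

/-- the main estimate -/
def T_MAIN : Prop := ∀ (m d D K : ℕ) (ε : ℝ), 2 ≤ d → 0 < ε → ∃ C : ℝ, 0 < C ∧ ∀ (H V : ℕ)
  (z : Matrix (Fin (m + 2)) (Fin (m + 2)) ℤ) (e : Fin m → ℕ) (w : Fin m → MvPolynomial (Fin 3) ℤ),
  1 ≤ H → 1 ≤ V → IsD D z e w → (∀ i j, |z i j| ≤ (H : ℤ) ^ K) →
  (∀ j, |z 0 j| ≤ V ∧ |z 1 j| ≤ V) → (∀ i μ, |(w i).coeff μ| ≤ (H : ℤ) ^ K) →
  ({f | f ∈ FF (m + 1) d H ∧ ∃ x : Fin (m + 2) → ℤ, x ≠ 0 ∧ OnC z w x ∧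
    eval x f = 0}.ncard : ℝ) ≤ C * (V : ℝ) ^ d * (H : ℝ) ^ ε * (H : ℝ) ^ (NN (m + 1) d - 1)

/-- the main estimate for monic data -/
def T_MAINM : Prop := ∀ (m d D K : ℕ) (ε : ℝ), 2 ≤ d → 0 < ε → ∃ C : ℝ, 0 < C ∧ ∀ (H V : ℕ)
  (z : Matrix (Fin (m + 2)) (Fin (m + 2)) ℤ) (e : Fin m → ℕ) (w : Fin m → MvPolynomial (Fin 3) ℤ),
  1 ≤ H → 1 ≤ V → IsM D z e w → (∀ i j, |z i j| ≤ (H : ℤ) ^ K) →
  (∀ j, |z 0 j| ≤ V ∧ |z 1 j| ≤ V) → (∀ i μ, |(w i).coeff μ| ≤ (H : ℤ) ^ K) →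
  ({f | f ∈ FF (m + 1) d H ∧ ∃ x : Fin (m + 2) → ℤ, x ≠ 0 ∧ OnC z w x ∧
    eval x f = 0}.ncard : ℝ) ≤ C * (V : ℝ) ^ d * (H : ℝ) ^ ε * (H : ℝ) ^ (NN (m + 1) d - 1)

/-- [MON] reduction to monic data -/
def T_MON : Prop := T_MAINM → T_MAIN

/-! ## matrices -/

/-- companion matrix of size `e` -/
noncomputable def cpm {R : Type*} [CommRing R] (p : Polynomial R) (e : ℕ) :
    Matrix (Fin e) (Fin e) R := fun a b =>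
  if (b : ℕ) + 1 < e then (if (a : ℕ) = b + 1 then 1 else 0) else -p.coeff a

/-- [CMP] the row vector of the powers of a root is an eigenvector -/
def T_CMP : Prop := ∀ (R : Type) [CommRing R] (p : Polynomial R) (e k : ℕ) (η : R), 1 ≤ e →
  p.Monic → p.natDegree = e → p.eval η = 0 →
  Matrix.vecMul (fun a : Fin e => η ^ (a : ℕ)) ((cpm p e) ^ k) =
    fun a : Fin e => η ^ k * η ^ (a : ℕ)

/-- the matrix of multiplication by `F(s, t, ·)` -/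
noncomputable def MF {R : Type*} [CommRing R] {m : ℕ} (F : MvPolynomial (Fin (m + 2)) ℤ) (s t : R)
    (p : Fin m → Polynomial R) (e : Fin m → ℕ) :
    Matrix ((i : Fin m) → Fin (e i)) ((i : Fin m) → Fin (e i)) R := fun β γ =>
  ∑ μ ∈ F.support, ((F.coeff μ : ℤ) : R) * s ^ μ 0 * t ^ μ 1 *
    ∏ i, ((cpm (p i) (e i)) ^ μ i.succ.succ) (β i) (γ i)

/-- [KRN] `F(s, t, η)` is an eigenvalue -/
def T_KRN : Prop := ∀ (R : Type) [CommRing R] (m : ℕ) (F : MvPolynomial (Fin (m + 2)) ℤ) (s t : R)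
  (p : Fin m → Polynomial R) (e : Fin m → ℕ) (η : Fin m → R), (∀ i, 1 ≤ e i) →
  (∀ i, (p i).Monic) → (∀ i, (p i).natDegree = e i) → (∀ i, (p i).eval (η i) = 0) →
  Matrix.vecMul (fun β : (i : Fin m) → Fin (e i) => ∏ i, η i ^ (β i : ℕ)) (MF F s t p e) =
    fun β => (∑ μ ∈ F.support, ((F.coeff μ : ℤ) : R) * s ^ μ 0 * t ^ μ 1 *
      ∏ i, η i ^ μ i.succ.succ) * ∏ i, η i ^ (β i : ℕ)

/-- [DVD] divisibility of the determinant -/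
def T_DVD : Prop := ∀ (q : ℕ) (m : ℕ) (F : MvPolynomial (Fin (m + 2)) ℤ) (s t : ℤ)
  (p : Fin m → Polynomial ℤ) (e : Fin m → ℕ) (η : Fin m → ZMod q), (∀ i, 1 ≤ e i) →
  (∀ i, (p i).Monic) → (∀ i, (p i).natDegree = e i) →
  (∀ i, ((p i).map (Int.castRingHom (ZMod q))).eval (η i) = 0) →
  (∑ μ ∈ F.support, ((F.coeff μ : ℤ) : ZMod q) * (s : ZMod q) ^ μ 0 * (t : ZMod q) ^ μ 1 *
      ∏ i, η i ^ μ i.succ.succ) = 0 →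
  (q : ℤ) ∣ (MF F s t p e).det

/-- the polynomial `w(s, t, T)` -/
noncomputable def sp (w : MvPolynomial (Fin 3) ℤ) (s t : ℤ) : Polynomial ℤ :=
  aeval ![Polynomial.C s, Polynomial.C t, Polynomial.X] w

/-- [SPM] `w(s, t, T)` is monic -/
def T_SPM : Prop := ∀ (w : MvPolynomial (Fin 3) ℤ) (e : ℕ) (s t : ℤ), w.IsHomogeneous e →
  w.coeff (Finsupp.single 2 e) = 1 → (sp w s t).Monic ∧ (sp w s t).natDegree = e ∧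
  (∀ T : ℤ, (sp w s t).eval T = eval ![s, t, T] w) ∧
  ∀ (B : ℕ), (∀ μ, |w.coeff μ| ≤ B) → |s| ≤ 1 → |t| ≤ 1 → ∀ j,
    |(sp w s t).coeff j| ≤ ((e : ℤ) + 1) ^ 3 * B

/-- [ZER] the first two coordinates of a zero divide determinants -/
def T_ZER : Prop := ∀ (m d : ℕ) (F : MvPolynomial (Fin (m + 2)) ℤ) (e : Fin m → ℕ)
  (w : Fin m → MvPolynomial (Fin 3) ℤ) (y : Fin (m + 2) → ℤ), F.IsHomogeneous d →
  (∀ i, 1 ≤ e i ∧ (w i).IsHomogeneous (e i) ∧ (w i).coeff (Finsupp.single 2 (e i)) = 1) →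
  IsCoprime (y 0) (y 1) → (∀ i : Fin m, eval ![y 0, y 1, y i.succ.succ] (w i) = 0) →
  eval y F = 0 →
  y 0 ∣ (MF F (0 : ℤ) 1 (fun i => sp (w i) 0 1) e).det ∧
  y 1 ∣ (MF F (1 : ℤ) 0 (fun i => sp (w i) 1 0) e).det

/-- [PRM] passing to coprime first coordinates -/
def T_PRM : Prop := ∀ (m : ℕ) (e : Fin m → ℕ) (w : Fin m → MvPolynomial (Fin 3) ℤ)
  (y : Fin (m + 2) → ℤ),
  (∀ i, 1 ≤ e i ∧ (w i).IsHomogeneous (e i) ∧ (w i).coeff (Finsupp.single 2 (e i)) = 1) →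
  y ≠ 0 → (∀ i : Fin m, eval ![y 0, y 1, y i.succ.succ] (w i) = 0) →
  ∃ (g : ℤ) (y' : Fin (m + 2) → ℤ), g ≠ 0 ∧ y = g • y' ∧ IsCoprime (y' 0) (y' 1) ∧
    ∀ i : Fin m, eval ![y' 0, y' 1, y' i.succ.succ] (w i) = 0

/-- [SIZ] the size of the determinants -/
def T_SIZ : Prop := ∀ (m d D K C₁ : ℕ), ∃ C₀ K' : ℕ, 1 ≤ C₀ ∧ ∀ (H : ℕ)
  (F : MvPolynomial (Fin (m + 2)) ℤ) (e : Fin m → ℕ) (w : Fin m → MvPolynomial (Fin 3) ℤ)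
  (s t : ℤ), 1 ≤ H → F.IsHomogeneous d → (∀ μ, |F.coeff μ| ≤ (C₁ : ℤ) * (H : ℤ) ^ K) →
  |s| ≤ 1 → |t| ≤ 1 →
  (∀ i, 1 ≤ e i ∧ e i ≤ D ∧ (w i).IsHomogeneous (e i) ∧
    (w i).coeff (Finsupp.single 2 (e i)) = 1) → (∀ i μ, |(w i).coeff μ| ≤ (H : ℤ) ^ K) →
  |(MF F s t (fun i => sp (w i) s t) e).det| ≤ (C₀ : ℤ) * (H : ℤ) ^ K'

/-- [INV] forms divisible by `X 0 * X 1` do not change the two matrices -/
def T_INV : Prop := ∀ (m : ℕ) (F G : MvPolynomial (Fin (m + 2)) ℤ) (p : Fin m → Polynomial ℤ)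
  (e : Fin m → ℕ), MF (F + X 0 * X 1 * G) (0 : ℤ) 1 p e = MF F (0 : ℤ) 1 p e ∧
    MF (F + X 0 * X 1 * G) (1 : ℤ) 0 p e = MF F (1 : ℤ) 0 p e

/-- [CHR] few translates have a vanishing determinant -/
def T_CHR : Prop := ∀ (m d : ℕ) (c : ℤ) (F : MvPolynomial (Fin (m + 2)) ℤ)
  (p : Fin m → Polynomial ℤ) (e : Fin m → ℕ), c ≠ 0 →
  ({τ : ℤ | (MF (F + C (τ * c) * X 1 ^ d) (0 : ℤ) 1 p e).det = 0}.Finite ∧
    {τ : ℤ | (MF (F + C (τ * c) * X 1 ^ d) (0 : ℤ) 1 p e).det = 0}.ncard ≤ ∏ i, e i) ∧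
  ({τ : ℤ | (MF (F + C (τ * c) * X 0 ^ d) (1 : ℤ) 0 p e).det = 0}.Finite ∧
    {τ : ℤ | (MF (F + C (τ * c) * X 0 ^ d) (1 : ℤ) 0 p e).det = 0}.ncard ≤ ∏ i, e i)

/-- [CAN] the number of candidates -/
def T_CAN : Prop := ∀ (m : ℕ) (e : Fin m → ℕ) (w : Fin m → MvPolynomial (Fin 3) ℤ) (a b : ℤ),
  (∀ i, 1 ≤ e i ∧ (w i).IsHomogeneous (e i) ∧ (w i).coeff (Finsupp.single 2 (e i)) = 1) →
  a ≠ 0 → b ≠ 0 →
  ({y : Fin (m + 2) → ℤ | y 0 ∣ a ∧ y 1 ∣ b ∧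
    ∀ i : Fin m, eval ![y 0, y 1, y i.succ.succ] (w i) = 0}.Finite) ∧
  {y : Fin (m + 2) → ℤ | y 0 ∣ a ∧ y 1 ∣ b ∧
    ∀ i : Fin m, eval ![y 0, y 1, y i.succ.succ] (w i) = 0}.ncard ≤
    (2 * #a.natAbs.divisors) * (2 * #b.natAbs.divisors) * ∏ i, e i

/-- [LIN] counting along lines -/
def T_LIN : Prop := ∀ (n d : ℕ), ∃ C₀ : ℕ, 1 ≤ C₀ ∧ ∀ (H B L : ℕ)
  (g : MvPolynomial (Fin (n + 1)) ℤ) (A : Set (MvPolynomial (Fin (n + 1)) ℤ)), 1 ≤ H →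
  g ∈ FF n d B → g ≠ 0 → B ≤ H →
  (∀ f : MvPolynomial (Fin (n + 1)) ℤ,
    {τ : ℤ | f + C τ * g ∈ FF n d H ∧ f + C τ * g ∈ A}.Finite ∧
    {τ : ℤ | f + C τ * g ∈ FF n d H ∧ f + C τ * g ∈ A}.ncard ≤ L) →
  {f | f ∈ FF n d H ∧ f ∈ A}.ncard ≤ C₀ * L * B * H ^ (NN n d - 1)

/-- linear substitution -/
noncomputable def trf {m : ℕ} (A : Matrix (Fin m) (Fin m) ℤ) (f : MvPolynomial (Fin m) ℤ) :
    MvPolynomial (Fin m) ℤ := aeval (fun i => ∑ j, C (A i j) * X j) f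

/-- [TRF] facts on linear substitutions -/
def T_TRF : Prop :=
  (∀ (m : ℕ) (A : Matrix (Fin m) (Fin m) ℤ) (f : MvPolynomial (Fin m) ℤ) (y : Fin m → ℤ),
    eval y (trf A f) = eval (A.mulVec y) f) ∧
  (∀ (m d : ℕ) (A : Matrix (Fin m) (Fin m) ℤ) (f : MvPolynomial (Fin m) ℤ), f.IsHomogeneous d →
    (trf A f).IsHomogeneous d) ∧
  (∀ (m d : ℕ), ∃ C₀ : ℕ, 1 ≤ C₀ ∧ ∀ (A : Matrix (Fin m) (Fin m) ℤ) (f : MvPolynomial (Fin m) ℤ)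
    (a b : ℕ), f.IsHomogeneous d → (∀ i j, |A i j| ≤ a) → (∀ μ, |f.coeff μ| ≤ b) →
    ∀ μ, |(trf A f).coeff μ| ≤ (C₀ : ℤ) * (a : ℤ) ^ d * b) ∧
  (∀ m : ℕ, ∃ C₀ : ℕ, 1 ≤ C₀ ∧ ∀ (z : Matrix (Fin m) (Fin m) ℤ) (a : ℕ),
    (∀ i j, |z i j| ≤ a) → ∀ i j, |z.adjugate i j| ≤ (C₀ : ℤ) * ((a : ℤ) + 1) ^ m)

/-- the linear form number `i` -/
noncomputable def lf {m : ℕ} (z : Matrix (Fin m) (Fin m) ℤ) (i : Fin m) :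
    MvPolynomial (Fin m) ℤ := ∑ j, C (z i j) * X j

/-- [LFF] the three directions -/
def T_LFF : Prop :=
  (∀ (m : ℕ) (z : Matrix (Fin m) (Fin m) ℤ) (i : Fin m),
    trf z.adjugate (lf z i) = C z.det * X i ∧ (z.det ≠ 0 → lf z i ≠ 0)) ∧
  (∀ (m d : ℕ), ∃ C₀ : ℕ, 1 ≤ C₀ ∧ ∀ (z : Matrix (Fin (m + 2)) (Fin (m + 2)) ℤ) (V : ℕ),
    (∀ j, |z 0 j| ≤ V ∧ |z 1 j| ≤ V) →
    lf z 0 ^ d ∈ FF (m + 1) d (C₀ * V ^ d) ∧ lf z 1 ^ d ∈ FF (m + 1) d (C₀ * V ^ d) ∧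
    (2 ≤ d → lf z 0 * lf z 1 * lf z 0 ^ (d - 2) ∈ FF (m + 1) d (C₀ * V ^ d)))

/-- [DB] the divisor bound -/
def T_DB : Prop := ∀ ε : ℝ, 0 < ε → ∃ C : ℝ, 1 ≤ C ∧ ∀ n : ℕ, 1 ≤ n →
  (#n.divisors : ℝ) ≤ C * (n : ℝ) ^ ε

/-- [MNM] the monic case -/
def T_MNM : Prop := T_ZER → T_PRM → T_SIZ → T_INV → T_CHR → T_CAN → T_LIN → T_TRF → T_LFF →
  T_DB → T_MAINM

/-- zeros on all the curves of small height -/
def T_FAMC : Prop := ∀ (m d D : ℕ) (η θ : ℝ), 2 ≤ d → 0 ≤ η → 0 ≤ θ →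
  η * (((m : ℝ) + 2) ^ 2 + d) + θ * ((m : ℝ) * ((D : ℝ) + 1) * ((D : ℝ) + 2) / 2) < 1 →
  ∃ C₀ δ : ℝ, 0 < δ ∧ ∀ H : ℕ, 1 ≤ H →
  ({f | f ∈ FF (m + 1) d H ∧ ∃ (x : Fin (m + 2) → ℤ) (z : Matrix (Fin (m + 2)) (Fin (m + 2)) ℤ)
    (e : Fin m → ℕ) (w : Fin m → MvPolynomial (Fin 3) ℤ), x ≠ 0 ∧ IsD D z e w ∧
    (∀ i j, |((z i j : ℤ) : ℝ)| ≤ (H : ℝ) ^ η) ∧
    (∀ i μ, |(((w i).coeff μ : ℤ) : ℝ)| ≤ (H : ℝ) ^ θ) ∧ OnC z w x ∧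
    eval x f = 0}.ncard : ℝ) ≤ C₀ * (H : ℝ) ^ (-δ) * (H : ℝ) ^ NN (m + 1) d

/-- [FAM] from one curve to all -/
def T_FAM : Prop := T_MAIN → T_FAMC

end Pool.Agent.H21.CV
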